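import Mathlib
import Pool.Agent.H879.Nef.Empty

set_option autoImplicit false

/-!
# The conjecture over ample cores, in a linear range of the other multiplicities

Let `p_1, …, p_n`, `n ≥ 4`, be very general points of the complex projective plane, let
`D = d H - ∑ m_i E_i`, and let `T` be ANY set of the points. Suppose that the core
`D_0 = d H - ∑_{i ∈ T} m_i E_i` is ample, more precisely `D_0 C ≥ ρ e` for all irreducible curves `C`
of degree `e`, for some `ρ > 0` (`Core`; by the inequality of Nagata this holds if the `m_i`, `i ∈ T`,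
are at most `M` and `√κ M + ρ ≤ d`). The other points, in any number, have ARBITRARY multiplicities
`m_i ≤ μ`, where `μ` is at most a small constant times `ρ`: `10 ^ 25 √κ (μ + 1) ≤ ρ δ ^ 10`,
`0 < δ ≤ 1`, `κ ≥ 9`, `κ ≥ |T|`. Then `dim |D|` is the expected dimension in both of the cases

* `D ^ 2 ≤ - δ μ ^ 2` (then `|D|` is empty);
* `L ^ 2 ≥ δ (μ + 1) ^ 2` and the virtual dimension of `|L|` is at least `0`, where
  `L = (d + 3) H - ∑_{m_i ≥ 2} (m_i + 1) E_i` (`= D - K` away from the simple points).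

So near every ample class, and for any number of further points with arbitrary multiplicities up to a
constant times the size of the core, a counterexample to the conjecture has
`- δ μ ^ 2 < D ^ 2`, and `D ^ 2 < 3 K D + 2 (s - 9)` or `(D - K) ^ 2 < δ (μ + 1) ^ 2` (without the simple
points; `s` is the number of the others).

The proof. Both statements follow from the nefness of real classes over ample cores
(MP_309968_ag.SmallPointsOnAmpleCores): `L` is nef and big, and effective by its virtual dimension, and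
the vanishing theorem for such classes (MP_d3128a_ag.VirtualAdjoint) gives `h¹(D) = 0`. In the first
case the class `D_0 - θ ∑_{i ∉ T} m_i E_i`, `θ < 1`, of square `4 δ μ ^ 2 / 5` is nef, and it is
negative on `D`.
-/

namespace Pool.Agent.Results.MP_6e81d8_ag.AmpleCoresLinearRange

open MvPolynomial Pool.Agent.TH167.SHDefs

/-- `D_0 C ≥ ρ e` for all irreducible curves `C` of degree `e`, for `D_0 = d H - ∑_{i ∈ T} m_i E_i`;
`c i` is the multiplicity of `C` at `P i`. -/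
def Core {n : ℕ} (P : Fin n → Fin 2 → ℂ) (T : Finset (Fin n)) (d : ℕ) (m : Fin n → ℕ) (ρ : ℝ) :
    Prop :=
  ∀ (G : MvPolynomial (Fin 3) ℂ) (e : ℕ) (c : Fin n → ℕ), Curve P G e c →
    ρ * e ≤ d * e - ∑ i ∈ T, (m i : ℝ) * c i

/-- `Core`, or an explicit condition which implies it (by the inequality of Nagata). -/
def AmpleCore {n : ℕ} (P : Fin n → Fin 2 → ℂ) (T : Finset (Fin n)) (d : ℕ) (m : Fin n → ℕ)
    (κ : ℕ) (ρ : ℝ) : Prop :=
  Core P T d m ρ ∨ ∃ M : ℝ, 0 ≤ M ∧ (∀ i ∈ T, (m i : ℝ) ≤ M) ∧ √(κ : ℝ) * M + ρ ≤ d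

/-- The multiplicities of `L`: one more, at the points of multiplicity at least two. -/
def adj {n : ℕ} (m : Fin n → ℕ) : Fin n → ℕ := fun i => if 2 ≤ m i then m i + 1 else 0

theorem adj_eq {n : ℕ} (m : Fin n → ℕ) : H879.RV.up (H879.Pos.large m 1) = adj m := by
  funext i
  unfold H879.RV.up Pool.Agent.H879.Pos.large adj
  by_cases h : 2 ≤ m i
  · rw [if_pos h, if_pos (show 1 < m i by omega), if_neg (by omega)]
  · rw [if_neg h, if_neg (show ¬ 1 < m i by omega), if_pos rfl]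

theorem core_of {r d κ : ℕ} {P : Fin (r + 4) → Fin 2 → ℂ}
    (hP : AlgebraicIndependent ℚ (fun ij : Fin (r + 4) × Fin 2 => P ij.1 ij.2))
    {m : Fin (r + 4) → ℕ} {T : Finset (Fin (r + 4))} {ρ : ℝ} (hκ : 9 ≤ κ) (hTκ : T.card ≤ κ)
    (h : AmpleCore P T d m κ ρ) : Core P T d m ρ := by
  rcases h with h | ⟨M, hM0, hM, hd⟩
  · exact h
  · intro G e c hG
    obtain ⟨g1, g2, g3⟩ := Pool.Agent.TH167.SH.curve_iff.1 hG
    have h1 := H879.Pos.nagata_sub (n := r + 4) (k := κ) (e := e) hκ (c := c) hTκ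
      (H879.Nef.one_le_crk hP g1.ne_zero g2 fun i => (g3 i).1)
    push_cast at h1
    have h2 : ∑ i ∈ T, (m i : ℝ) * c i ≤ M * ∑ i ∈ T, (c i : ℝ) := by
      rw [Finset.mul_sum]
      exact Finset.sum_le_sum fun i hi => mul_le_mul_of_nonneg_right (hM i hi) (Nat.cast_nonneg _)
    have h3 : M * ∑ i ∈ T, (c i : ℝ) ≤ M * (√(κ : ℝ) * e) := mul_le_mul_of_nonneg_left h1 hM0
    have h4 : (√(κ : ℝ) * M + ρ) * e ≤ d * e := mul_le_mul_of_nonneg_right hd (Nat.cast_nonneg _)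
    linarith

theorem result (n : ℕ) (hn : 4 ≤ n) :
    ∃ f : ℕ → MvPolynomial (Fin n × Fin 2) ℂ, (∀ k, f k ≠ 0) ∧
      ∀ P : Fin n → Fin 2 → ℂ, (∀ k, eval (fun ij : Fin n × Fin 2 => P ij.1 ij.2) (f k) ≠ 0) →
        ∀ (d : ℕ) (m : Fin n → ℕ) (T : Finset (Fin n)) (κ : ℕ) (ρ μ δ : ℝ), 9 ≤ κ → T.card ≤ κ →
          AmpleCore P T d m κ ρ → 0 ≤ μ → (∀ i, i ∉ T → (m i : ℝ) ≤ μ) → 0 < δ → δ ≤ 1 →
          10 ^ 25 * √(κ : ℝ) * (μ + 1) ≤ ρ * δ ^ 10 →
          ((d : ℝ) ^ 2 - ∑ i, (m i : ℝ) ^ 2 ≤ - (δ * μ ^ 2) ∨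
            (δ * (μ + 1) ^ 2 ≤ ((d : ℝ) + 3) ^ 2 - ∑ i, (adj m i : ℝ) ^ 2 ∧
              ∑ i, adj m i * (adj m i + 1) ≤ (d + 3) * (d + 6))) →
          dimL P d m = max (virtdim d m) (-1) ∧
            ((d : ℝ) ^ 2 - ∑ i, (m i : ℝ) ^ 2 ≤ - (δ * μ ^ 2) → dimL P d m = -1) := by
  classical
  obtain ⟨f, hf, h⟩ := Pool.Agent.TH167.SH.exists_fam (Fin n × Fin 2)
  refine ⟨f, hf, fun P hp => ?_⟩
  have hP := (h fun q => P q.1 q.2).1 hp
  intro d m T κ ρ μ δ hκ hTκ hcore0 hμ0 hμ hδ0 hδ1 hsmall hcase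
  obtain ⟨r, rfl⟩ : ∃ r, n = r + 4 := ⟨n - 4, by omega⟩
  have hcore := core_of hP hκ hTκ hcore0
  have hpos : ∀ (F : MvPolynomial (Fin 3) ℂ) (e : ℕ) (v : Fin (r + 4) → ℕ), F ≠ 0 →
      F.IsHomogeneous e → (∀ i, Pool.Agent.W609.CR.Van (Pool.Agent.W609.CR.aff (P i)) (v i) F) →
      ∑ i ∈ T, (m i : ℝ) * (v i : ℝ) ≤ (d - ρ) * e := by
    intro F e v hF0 hF hv
    have hT : ∀ z : Fin (r + 4) → ℝ, ∑ i, (if i ∈ T then (m i : ℝ) else 0) * z i =
        ∑ i ∈ T, (m i : ℝ) * z i := fun z => by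
      simp only [ite_mul, zero_mul, Finset.sum_ite_mem, Finset.univ_inter]
    rw [← hT fun i => (v i : ℝ)]
    refine Pool.Agent.K4H28.TC.form_of_irr (p := P) (fun i => ?_) (fun G e' u g1 g2 g3 => ?_) F hF0
      e v hF hv
    · split_ifs
      · exact Nat.cast_nonneg _
      · exact le_rfl
    · rw [hT fun i => (u i : ℝ)]
      have h4 := hcore G e' u (Pool.Agent.TH167.SH.curve_iff.2 ⟨g1, g2, g3⟩)
      linarith
  have hemp : (d : ℝ) ^ 2 - ∑ i, (m i : ℝ) ^ 2 ≤ - (δ * μ ^ 2) →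
      Pool.Agent.Y205.MD.crk (Pool.Agent.TH387.SH.TF d) m = 0 := fun hneg =>
    H879.Nef.empty_amp hP hκ hTκ hpos hμ0 hμ hδ0 hδ1 hsmall (by linarith)
  have hcrk : Pool.Agent.Y205.MD.crk (Pool.Agent.TH387.SH.TF d) m =
      (d + 2).choose 2 - ∑ i, (m i + 1).choose 2 := by
    rcases hcase with hneg | ⟨hq, heff⟩
    · have h3 := hemp hneg
      have h4 := Pool.Agent.H879.Pos.crk_lower d m
      rw [h3, zero_add] at h4
      rw [h3]
      omega
    · have hs3 : 3 ≤ √(κ : ℝ) := by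
        refine Real.le_sqrt_of_sq_le ?_
        have : (9 : ℝ) ≤ κ := by exact_mod_cast hκ
        linarith
      have h10 : δ ^ 10 ≤ 1 := pow_le_one₀ hδ0.le hδ1
      refine H879.Nef.crk_amp hP (ρ := ρ) (m := μ) (δ := δ) (T := T) hκ hTκ hpos hμ0 hμ hδ0 hδ1
        ?_ (by rw [adj_eq]; exact hq) ?_
      · have h1 : √(κ : ℝ) * δ ^ 10 ≤ √(κ : ℝ) * 1 := mul_le_mul_of_nonneg_left h10 (by linarith)
        have h2 : √(κ : ℝ) * 1 ≤ √(κ : ℝ) * (μ + 1) :=
          mul_le_mul_of_nonneg_left (by linarith) (by linarith)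
        have e1 : (ρ - √(κ : ℝ)) * δ ^ 10 = ρ * δ ^ 10 - √(κ : ℝ) * δ ^ 10 := by ring
        rw [e1]
        linarith
      · rw [adj_eq, ← Finset.sum_add_distrib]
        have e1 : ∑ i, (adj m i ^ 2 + adj m i) = ∑ i, adj m i * (adj m i + 1) :=
          Finset.sum_congr rfl fun i _ => by ring
        have e2 : (d + 4) * (d + 5) = (d + 3) * (d + 6) + 2 := by ring
        rw [e1, e2]
        omega
  have h5 := Pool.Agent.Q310.FP.nonspecial_of (H879.RV.ge_of_crk hcrk ℂ P hP)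
  unfold Special at h5
  push Not at h5
  refine ⟨h5, fun hneg => ?_⟩
  have h6 := hemp hneg
  rw [h6] at hcrk
  rw [h5]
  unfold virtdim
  have h7 : ((d + 2).choose 2 : ℤ) ≤ ∑ i, (((m i + 1).choose 2 : ℕ) : ℤ) := by
    have h8 : (d + 2).choose 2 ≤ ∑ i, (m i + 1).choose 2 := by omega
    exact_mod_cast h8
  omega

end Pool.Agent.Results.MP_6e81d8_ag.AmpleCoresLinearRange
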