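import Pool.Agent.H879.Nine.Fin

set_option autoImplicit false

/-!
# Independence of the conditions when nine (or more) large multiplicities are absorbed

For every vector `m` of multiplicities at general points of the complex projective plane the
linear system `|d H - ∑ m i E i|` is nonspecial with independent conditions (its dimension is the
virtual one) in the following ranges. Let `A` be a set of the points with `3 m i ≤ d` for `i ∈ A`,
let `M ≥ m i` for `i ∉ A`, let `C` be the sum of the `m i`, `i ∉ A`, and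
`row y = 3 d - 9 y - ∑_A max (m i - y) 0` (the degree of the class on a cubic, after `y` cubics and
their intersections with the absorbed points have been removed), `row 0 ≥ 0`.

* `Nine`: `A` consists of nine points with `m i ≥ μ ≥ M ≥ 1`, `δ = 3 d - ∑_A m i > 0` and
  `3 (M + 1) ^ 2 C ≤ M δ (d + 3 μ - 3 M + 9)`.
* `Rows`: `A` is arbitrary, `3 P < d`, `0 < ω ≤ row P`, and
  either `M ≤ P`, `ω ≤ row M`, `(|A| - 9) M ≤ ω`, `M (C - row 0) ≤ P ω`,
  or, for some `q ≥ 1`, `q (M + 1) ≤ P + 1`, `ω ≤ row (q M)`,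
  `(|A| - 9) q (M + 1) ≤ ω ≤ (M + 1) row 0` and
  `3 (M + 1) ^ 2 (C - ∑_{r < q} row r) ≤ ω (d M + 3 P - 3 (2 q - 1) (M + 1))`.

The proof: in the degeneration of the plane to a tube over an elliptic curve the cut may have any
real slope `s`. The points of `A` are absorbed at one end of the rows. What remains is a strip of
slope `s = (1 + σ) / q`; it is flattened along the direction `(1, q)` and the remaining points are
put on a line.
-/

namespace Pool.Agent.Results.MP_6e81d8_ag.NineLargestMultiplicities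

/-- The vector space of the forms of degree `d` in three variables over `ℂ` with multiplicity at
least `m i` at the point `(P i 0 : P i 1 : 1)` for every `i`. -/
noncomputable def forms {n : ℕ} (P : Fin n → Fin 2 → ℂ) (d : ℕ) (m : Fin n → ℕ) :
    Submodule ℂ (MvPolynomial (Fin 3) ℂ) :=
  MvPolynomial.homogeneousSubmodule (Fin 3) ℂ d ⊓
    Submodule.restrictScalars ℂ
      (⨅ i : Fin n,
        (Ideal.span
          ({MvPolynomial.X 0 - MvPolynomial.C (P i 0) * MvPolynomial.X 2,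
            MvPolynomial.X 1 - MvPolynomial.C (P i 1) * MvPolynomial.X 2} :
            Set (MvPolynomial (Fin 3) ℂ))) ^ (m i))

/-- The projective dimension of the linear system `|d H - m 0 E 0 - ⋯|`. -/
noncomputable def dim {n : ℕ} (P : Fin n → Fin 2 → ℂ) (d : ℕ) (m : Fin n → ℕ) : ℤ :=
  (Module.finrank ℂ ↥(forms P d m) : ℤ) - 1

/-- The virtual dimension. -/
def vdim {n : ℕ} (d : ℕ) (m : Fin n → ℕ) : ℤ :=
  ((d + 2).choose 2 : ℤ) - 1 - ∑ i, ((m i + 1).choose 2 : ℤ)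

/-- `3 d - 9 y - ∑_A max (m i - y) 0` -/
def row {n : ℕ} (d : ℕ) (m : Fin n → ℕ) (A : Finset (Fin n)) (y : ℤ) : ℤ :=
  3 * (d : ℤ) - 9 * y - ∑ i ∈ A, max ((m i : ℤ) - y) 0

/-- The sum of the multiplicities of the points which are not in `A`. -/
def rest {n : ℕ} (m : Fin n → ℕ) (A : Finset (Fin n)) : ℤ := ∑ i ∈ Finset.univ \ A, (m i : ℤ)

/-- Nine points `A` with multiplicities from `μ` to `d / 3`, the others from `0` to `M ≤ μ`. -/
def Nine {n : ℕ} (d : ℕ) (m : Fin n → ℕ) : Prop :=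
  ∃ (A : Finset (Fin n)) (M μ : ℕ), A.card = 9 ∧ (∀ i ∈ A, μ ≤ m i ∧ 3 * m i ≤ d) ∧
    (∀ i, i ∉ A → m i ≤ M) ∧ 1 ≤ M ∧ M ≤ μ ∧ 0 < 3 * (d : ℤ) - ∑ i ∈ A, (m i : ℤ) ∧
    3 * ((M : ℤ) + 1) ^ 2 * rest m A ≤
      M * (3 * (d : ℤ) - ∑ i ∈ A, (m i : ℤ)) * ((d : ℤ) + 3 * μ - 3 * M + 9)

/-- The criteria in terms of the rows, `A` arbitrary. -/
def Rows {n : ℕ} (d : ℕ) (m : Fin n → ℕ) : Prop :=
  ∃ (A : Finset (Fin n)) (M P : ℕ) (ω : ℤ), (∀ i ∈ A, 3 * m i ≤ d) ∧ (∀ i, i ∉ A → m i ≤ M) ∧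
    3 * P < d ∧ 0 ≤ row d m A 0 ∧ 0 < ω ∧ ω ≤ row d m A P ∧
    ((M ≤ P ∧ ω ≤ row d m A M ∧ ((A.card : ℤ) - 9) * M ≤ ω ∧
        (M : ℤ) * (rest m A - row d m A 0) ≤ P * ω) ∨
      ∃ q : ℕ, 1 ≤ q ∧ q * (M + 1) ≤ P + 1 ∧ ω ≤ row d m A ((q * M : ℕ) : ℤ) ∧
        ((A.card : ℤ) - 9) * (q * (M + 1)) ≤ ω ∧ ω ≤ (M + 1) * row d m A 0 ∧
        3 * ((M : ℤ) + 1) ^ 2 * (rest m A - ∑ r ∈ Finset.range q, row d m A ((r : ℕ) : ℤ)) ≤
          ω * ((d : ℤ) * M + 3 * P - 3 * (2 * q - 1) * (M + 1)))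

theorem result {n : ℕ} (m : Fin n → ℕ) :
    ∃ F : MvPolynomial (Fin n × Fin 2) ℂ, F ≠ 0 ∧
      ∀ P : Fin n → Fin 2 → ℂ,
        MvPolynomial.eval (fun ij : Fin n × Fin 2 => P ij.1 ij.2) F ≠ 0 →
        ∀ d : ℕ, Nine d m ∨ Rows d m → dim P d m = vdim d m := by
  have hB : ∀ d, (Nine d m ∨ Rows d m) →
      Pool.Agent.TH603.Sur.Sur m (Pool.Agent.TH603.Sur.TZ d) := by
    have hr : ∀ (d : ℕ) (A : Finset (Fin n)) (y : ℤ), row d m A y = H879.Nine.Wz d m A y :=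
      fun _ _ _ => rfl
    have hs : ∀ A : Finset (Fin n), rest m A = ((∑ i ∈ Finset.univ \ A, m i : ℕ) : ℤ) := by
      intro A
      unfold rest
      push_cast
      rfl
    rintro d (⟨A, M, μ, h1, h2, h3, h4, h5, h6, h7⟩ | ⟨A, M, P, ω, h1, h2, h3, h4, h5, h6, h⟩)
    · rw [hs] at h7
      refine H879.Nine.Sur_crit_nine h1 (fun i hi => (h2 i hi).2) (fun i hi => (h2 i hi).1) h3 h4 h5
        ?_ ?_
      · have h8 : ((∑ i ∈ A, m i : ℕ) : ℤ) < ((3 * d : ℕ) : ℤ) := by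
          push_cast
          linarith
        exact_mod_cast h8
      · push_cast at h7 ⊢
        exact h7
    · simp only [hr, hs] at h4 h6 h
      rcases h with ⟨g1, g2, g3, g4⟩ | ⟨q, g1, g2, g3, g4, g5, g6⟩
      · exact H879.Nine.Sur_crit_one h1 h2 g1 h3 h4 h5 g2 h6 g3 g4
      · exact H879.Nine.Sur_crit_two g1 h1 h2 g2 h3 h4 h5 g3 h6 g5 g4 g6
  obtain ⟨F, hF, hF'⟩ := H879.Nine.open_all hB
  refine ⟨F.map (algebraMap ℚ ℂ), H932R3.map_ne_zero_of hF, fun P hP d hd => ?_⟩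
  rw [MvPolynomial.eval_map] at hP
  have h1 : Module.finrank ℂ ↥(forms P d m) =
      Nat.choose (d + 2) 2 - ∑ i, Nat.choose (m i + 1) 2 := hF' P hP d hd
  have h2 : ∑ i, ((m i + 1).choose 2 : ℤ) = ((∑ i, Nat.choose (m i + 1) 2 : ℕ) : ℤ) := by
    push_cast
    rfl
  have h3 := H879.Nine.cond_le (hB d hd)
  unfold dim vdim
  rw [h1, h2]
  omega

end Pool.Agent.Results.MP_6e81d8_ag.NineLargestMultiplicities
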